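import Pool.Agent.H297R3.SL.Inj
import Pool.Agent.Y361.SL.TMoves

/-!
Virtual braids in virtual tangles: the virtual braid can be recovered from the tangle, even if an
arbitrary tangle is put beside it.
-/

set_option autoImplicit false

namespace Pool.Agent.Y361.SL

open Pool.Agent.Helper718.VB
open Pool.Agent.H297R3.SL Pool.Agent.H297R3.SL.Bq

/-- new names for the edges of the left diagram -/
def eL (e : Edge) : Edge := (2 * e.1, e.2)

/-- new names for the edges of the right diagram -/
def eR (e : Edge) : Edge := (2 * e.1 + 1, e.2)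

theorem eL_inj : Function.Injective eL := by
  rintro ⟨a, b⟩ ⟨c, d⟩ h
  simp only [eL, Prod.mk.injEq] at h
  obtain ⟨h1, h2⟩ := h
  rw [h2]
  congr 1
  omega

theorem eR_inj : Function.Injective eR := by
  rintro ⟨a, b⟩ ⟨c, d⟩ h
  simp only [eR, Prod.mk.injEq] at h
  obtain ⟨h1, h2⟩ := h
  rw [h2]
  congr 1
  omega

theorem eL_ne_eR (a b : Edge) : eL a ≠ eR b := by
  intro h
  have := congrArg Prod.fst h
  simp only [eL, eR] at this
  omega

/-- The diagram `D` with the diagram `T` beside it (the split union). The edges are renamed, so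
that `D` and `T` have no common edges. -/
def beside {n m : ℕ} (D : Diagram n) (T : Diagram m) : Diagram (n + m) where
  bot := Fin.append (eL ∘ D.bot) (eR ∘ T.bot)
  top := Fin.append (eL ∘ D.top) (eR ∘ T.top)
  pieces := D.pieces.map (Piece.rename eL) ++ T.pieces.map (Piece.rename eR)

theorem ins_rename (g : Edge → Edge) (p : Piece) : (p.rename g).ins = p.ins.map g := by
  cases p <;> rfl

theorem outs_rename (g : Edge → Edge) (p : Piece) : (p.rename g).outs = p.outs.map g := by
  cases p <;> rfl

theorem insOf_map (g : Edge → Edge) (L : List Piece) :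
    insOf (L.map (Piece.rename g)) = (insOf L).map g := by
  induction L with
  | nil => rfl
  | cons p L ih =>
    simp only [insOf, List.map_cons, List.flatMap_cons, List.map_append] at ih ⊢
    rw [ih, ins_rename]

theorem outsOf_map (g : Edge → Edge) (L : List Piece) :
    outsOf (L.map (Piece.rename g)) = (outsOf L).map g := by
  induction L with
  | nil => rfl
  | cons p L ih =>
    simp only [outsOf, List.map_cons, List.flatMap_cons, List.map_append] at ih ⊢
    rw [ih, outs_rename]

theorem perm4 {α : Type} (A B C D : List α) :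
    (A ++ B ++ (C ++ D)).Perm (A ++ C ++ (B ++ D)) := by
  rw [List.append_assoc, List.append_assoc]
  exact (List.perm_append_comm_assoc B C D).append_left A

theorem beside_ins {n m : ℕ} (D : Diagram n) (T : Diagram m) :
    (insOf (beside D T).pieces ++ List.ofFn (beside D T).top).Perm
      ((insOf D.pieces ++ List.ofFn D.top).map eL ++
        (insOf T.pieces ++ List.ofFn T.top).map eR) := by
  have h : List.ofFn (beside D T).top =
      (List.ofFn D.top).map eL ++ (List.ofFn T.top).map eR := by
    show List.ofFn (Fin.append (eL ∘ D.top) (eR ∘ T.top)) = _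
    rw [List.ofFn_fin_append, List.map_ofFn, List.map_ofFn]
  rw [h]
  show (insOf (D.pieces.map (Piece.rename eL) ++ T.pieces.map (Piece.rename eR)) ++ _).Perm _
  rw [insOf_append, insOf_map, insOf_map, List.map_append, List.map_append]
  exact perm4 _ _ _ _

theorem beside_outs {n m : ℕ} (D : Diagram n) (T : Diagram m) :
    (outsOf (beside D T).pieces ++ List.ofFn (beside D T).bot).Perm
      ((outsOf D.pieces ++ List.ofFn D.bot).map eL ++
        (outsOf T.pieces ++ List.ofFn T.bot).map eR) := by
  have h : List.ofFn (beside D T).bot =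
      (List.ofFn D.bot).map eL ++ (List.ofFn T.bot).map eR := by
    show List.ofFn (Fin.append (eL ∘ D.bot) (eR ∘ T.bot)) = _
    rw [List.ofFn_fin_append, List.map_ofFn, List.map_ofFn]
  rw [h]
  show (outsOf (D.pieces.map (Piece.rename eL) ++ T.pieces.map (Piece.rename eR)) ++ _).Perm _
  rw [outsOf_append, outsOf_map, outsOf_map, List.map_append, List.map_append]
  exact perm4 _ _ _ _

theorem beside_isTangle {n m : ℕ} {D : Diagram n} {T : Diagram m} (hD : IsTangle D)
    (hT : IsTangle T) : IsTangle (beside D T) := by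
  constructor
  · rw [(beside_ins D T).nodup_iff, List.nodup_append]
    refine ⟨hD.1.map eL_inj, hT.1.map eR_inj, ?_⟩
    intro a ha b hb hab
    obtain ⟨a', _, rfl⟩ := List.mem_map.mp ha
    obtain ⟨b', _, rfl⟩ := List.mem_map.mp hb
    exact eL_ne_eR _ _ hab
  · refine (beside_ins D T).trans (List.Perm.trans ?_ (beside_outs D T).symm)
    exact (hD.2.map eL).append (hT.2.map eR)

/-- The split union of two tangle diagrams. -/
def besideT {n m : ℕ} (D : TangleDiagram n) (T : TangleDiagram m) : TangleDiagram (n + m) :=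
  ⟨beside D.1 T.1, beside_isTangle D.2 T.2⟩

theorem braid_isTangle {n : ℕ} (w : List (Letter n)) : IsTangle (braidDiagram w) :=
  ⟨braid_nodup w, (ins_perm w).trans (outs_perm w).symm⟩

/-- The monotone diagram of a virtual braid word as a tangle diagram. -/
def braidTangle {n : ℕ} (w : List (Letter n)) : TangleDiagram n :=
  ⟨braidDiagram w, braid_isTangle w⟩

section

variable {X : Type} (B : Bq X)

theorem col_beside {n m : ℕ} (D : Diagram n) (T : Diagram m) (x y : Fin n → X)
    (u v : Fin m → X) : B.Col (beside D T) (Fin.append x u) (Fin.append y v) ↔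
      B.Col D x y ∧ B.Col T u v := by
  constructor
  · rintro ⟨f, h1, h2, h3⟩
    refine ⟨⟨f ∘ eL, ?_, ?_, ?_⟩, ⟨f ∘ eR, ?_, ?_, ?_⟩⟩
    · intro p hp
      rw [← sat_rename]
      exact h1 _ (List.mem_append_left _ (List.mem_map_of_mem hp))
    · intro i
      have := h2 (Fin.castAdd m i)
      simpa only [beside, Fin.append_left, Function.comp] using this
    · intro i
      have := h3 (Fin.castAdd m i)
      simpa only [beside, Fin.append_left, Function.comp] using this
    · intro p hp
      rw [← sat_rename]
      exact h1 _ (List.mem_append_right _ (List.mem_map_of_mem hp))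
    · intro i
      have := h2 (Fin.natAdd n i)
      simpa only [beside, Fin.append_right, Function.comp] using this
    · intro i
      have := h3 (Fin.natAdd n i)
      simpa only [beside, Fin.append_right, Function.comp] using this
  · rintro ⟨⟨f, h1, h2, h3⟩, ⟨g, k1, k2, k3⟩⟩
    let F : Edge → X := fun e => if e.1 % 2 = 0 then f (e.1 / 2, e.2) else g (e.1 / 2, e.2)
    have hL : F ∘ eL = f := by
      funext e
      show (if (2 * e.1) % 2 = 0 then f ((2 * e.1) / 2, e.2) else g ((2 * e.1) / 2, e.2)) = f e
      have e1 : (2 * e.1) % 2 = 0 := by omega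
      have e2 : (2 * e.1) / 2 = e.1 := by omega
      rw [if_pos e1, e2]
    have hR : F ∘ eR = g := by
      funext e
      show (if (2 * e.1 + 1) % 2 = 0 then f ((2 * e.1 + 1) / 2, e.2)
        else g ((2 * e.1 + 1) / 2, e.2)) = g e
      have e1 : ¬ (2 * e.1 + 1) % 2 = 0 := by omega
      have e2 : (2 * e.1 + 1) / 2 = e.1 := by omega
      rw [if_neg e1, e2]
    refine ⟨F, ?_, ?_, ?_⟩
    · intro p hp
      rcases List.mem_append.mp hp with hp | hp
      · obtain ⟨q, hq, rfl⟩ := List.mem_map.mp hp
        rw [sat_rename, hL]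
        exact h1 q hq
      · obtain ⟨q, hq, rfl⟩ := List.mem_map.mp hp
        rw [sat_rename, hR]
        exact k1 q hq
    · intro i
      refine Fin.addCases (fun i => ?_) (fun i => ?_) i
      · show F (Fin.append (eL ∘ D.bot) (eR ∘ T.bot) (Fin.castAdd m i)) = _
        rw [Fin.append_left, Fin.append_left, ← h2 i]
        exact congrFun hL (D.bot i)
      · show F (Fin.append (eL ∘ D.bot) (eR ∘ T.bot) (Fin.natAdd n i)) = _
        rw [Fin.append_right, Fin.append_right, ← k2 i]
        exact congrFun hR (T.bot i)
    · intro i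
      refine Fin.addCases (fun i => ?_) (fun i => ?_) i
      · show F (Fin.append (eL ∘ D.top) (eR ∘ T.top) (Fin.castAdd m i)) = _
        rw [Fin.append_left, Fin.append_left, ← h3 i]
        exact congrFun hL (D.top i)
      · show F (Fin.append (eL ∘ D.top) (eR ∘ T.top) (Fin.natAdd n i)) = _
        rw [Fin.append_right, Fin.append_right, ← k3 i]
        exact congrFun hR (T.top i)

/-- constant colourings -/
theorem col_const {c : X} (hc : B.A c c = c) {m : ℕ} (T : Diagram m) :
    B.Col T (fun _ => c) (fun _ => c) := by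
  refine ⟨fun _ => c, ?_, fun _ => rfl, fun _ => rfl⟩
  intro p _
  have h2 : B.C c c = c := (B.r1 c c).mp hc
  cases p with
  | cross s a b d e =>
    simp only [Sat, K, P]
    cases s
    · simp only [Bool.false_eq_true, if_false]
      exact ⟨hc, h2⟩
    · simp only [if_true]
      exact ⟨hc, h2⟩
  | dot a b => rfl

end

/-- There is a biquandle whose birack gives a faithful action and which has an element that
colours every diagram constantly. -/
theorem exists_faithful_bq' (n : ℕ) (hn : 2 ≤ n) : ∃ (X : Type) (_ : Inhabited X) (B : Bq X)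
    (R : Birack X) (_ : Compat B R) (φ : VB n →* Equiv.Perm (Fin n → X)),
      (∀ (i : Fin (n - 1)) (x : Fin n → X), φ (sig i) x = applyS R i x) ∧
      (∀ (i : Fin (n - 1)) (x : Fin n → X), φ (rh i) x = applyR i x) ∧
      Function.Injective φ ∧ ∃ c : X, B.A c c = c := by
  obtain ⟨B⟩ := VB5.exists_bfg
  obtain ⟨A, h1, h2, h3, h4, h5, h6⟩ := VB6.exists_extension B
  have hA : Ext B A := ⟨h1, h2, h3, h4, h5, h6⟩
  obtain ⟨R, hR⟩ := birack_of_ext hA
  obtain ⟨φ, hs, hr⟩ := VB1.exists_action R n
  exact ⟨Y, ⟨1⟩, bqOfExt hA, R, ⟨hR⟩, φ, hs, hr, faithful_of_ext hA hR hn φ hs hr, 1,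
    hA.one_left 1⟩

/-- The virtual braid is determined by the tangle, even with tangles beside it. -/
theorem braid_of_beside {n m : ℕ} (w w' : List (Letter n)) (T T' : TangleDiagram m)
    (h : (Quot.mk _ (besideT (braidTangle w) T) : vT (n + m)) =
      Quot.mk _ (besideT (braidTangle w') T')) : toVB w = toVB w' := by
  by_cases hn : 2 ≤ n
  · obtain ⟨X, _, B, R, hBR, φ, hs, hr, hφ, c, hc⟩ := exists_faithful_bq' n hn
    apply hφ
    ext1 y
    have h0 := (col_beside B (braidDiagram w) T.1 (φ (toVB w) y) y (fun _ => c)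
      (fun _ => c)).mpr ⟨(col_braid hBR φ hs hr w _ _).mpr rfl, col_const B hc T.1⟩
    have h1 := (col_vT B h (Fin.append (φ (toVB w) y) (fun _ => c))
      (Fin.append y (fun _ => c))).mp h0
    have h2 := (col_beside B (braidDiagram w') T'.1 _ _ _ _).mp h1
    exact (col_braid hBR φ hs hr w' _ _).mp h2.1
  · rw [list_empty hn w, list_empty hn w']

/-- The virtual braid is determined by the tangle. -/
theorem braid_of_tangle {n : ℕ} (w w' : List (Letter n))
    (h : (Quot.mk _ (braidTangle w) : vT n) = Quot.mk _ (braidTangle w')) :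
    toVB w = toVB w' := by
  by_cases hn : 2 ≤ n
  · obtain ⟨X, _, B, R, hBR, φ, hs, hr, hφ, c, hc⟩ := exists_faithful_bq' n hn
    apply hφ
    ext1 y
    have h1 := (col_vT B h (φ (toVB w) y) y).mp ((col_braid hBR φ hs hr w _ _).mpr rfl)
    exact (col_braid hBR φ hs hr w' _ _).mp h1
  · rw [list_empty hn w, list_empty hn w']

theorem isTangle_of_isStringLink {n : ℕ} {D : Diagram n} (h : IsStringLink D) : IsTangle D :=
  ⟨h.1, h.2.1⟩

/-- Every virtual string link is a virtual tangle. -/
def toTangle {n : ℕ} : vSL n → vT n :=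
  Quot.map (fun D : StringLinkDiagram n => (⟨D.1, isTangle_of_isStringLink D.2⟩ :
    TangleDiagram n)) fun _ _ h => h

end Pool.Agent.Y361.SL
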